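import Pool.Agent.W482.IP.Stm
set_option autoImplicit false

/-!
# Project IP, part CNT: counting sign changes along a piecewise rational curve
-/

namespace Pool.Agent.W805.IP

open Finset Filter Topology Set Pool.Agent.W482.IP

/-- first hitting point of a level -/
lemma hit {f : ℝ → ℝ} {N v : ℝ} (hN : 0 ≤ N) (hf : ContinuousOn f (Icc 0 N)) (h0 : v ≤ f 0)
    (h1 : f N ≤ v) : ∃ t ∈ Icc 0 N, f t = v ∧ ∀ s ∈ Icc 0 t, v ≤ f s := by
  have hc : IsClosed (Icc 0 N ∩ f ⁻¹' (Iic v)) :=
    hf.preimage_isClosed_of_isClosed isClosed_Icc isClosed_Iic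
  have hcomp : IsCompact (Icc 0 N ∩ f ⁻¹' (Iic v)) :=
    isCompact_Icc.of_isClosed_subset hc inter_subset_left
  obtain ⟨t, ht, hmin⟩ := hcomp.exists_isLeast ⟨N, ⟨hN, le_rfl⟩, h1⟩
  have hft : f t ≤ v := ht.2
  have key : ∀ s ∈ Icc 0 t, f s ≤ v → s = t := by
    intro s hs hsv
    exact le_antisymm hs.2 (hmin ⟨⟨hs.1, hs.2.trans ht.1.2⟩, hsv⟩)
  have hft' : f t = v := by
    obtain ⟨s, hs, hsv⟩ := intermediate_value_Icc' ht.1.1
      (hf.mono (Icc_subset_Icc_right ht.1.2)) ⟨hft, h0⟩
    rw [← key s hs hsv.le]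
    exact hsv
  refine ⟨t, ht.1, hft', fun s hs => ?_⟩
  by_contra hcon
  have h2 := key s hs (not_le.1 hcon).le
  rw [h2, hft'] at hcon
  exact hcon le_rfl

theorem cnt : CNT := by
  intro N R T C d f g hT hR hf hpc h0 hNf hsg
  have hT0 : 0 < T := by linarith
  have hN : 0 < N := by
    rcases Nat.eq_zero_or_pos N with h | h
    · exfalso
      rw [h] at hNf
      simp only [Nat.cast_zero] at hNf
      have h1 : T ^ (-2 * R : ℤ) < T ^ (2 * R : ℤ) := zpow_lt_zpow_right₀ hT (by omega)
      linarith
    · exact h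
  -- the hitting points
  have hex : ∀ k : ℕ, ∃ t : ℝ, k ≤ 2 * R → t ∈ Icc 0 (N : ℝ) ∧ f t = T ^ (2 * R - 2 * k : ℤ) ∧
      ∀ s ∈ Icc 0 t, T ^ (2 * R - 2 * k : ℤ) ≤ f s := by
    intro k
    by_cases hk : k ≤ 2 * R
    · obtain ⟨t, h1, h2, h3⟩ := hit (Nat.cast_nonneg N) hf
        ((zpow_le_zpow_right₀ hT.le (by omega : (2 * R - 2 * k : ℤ) ≤ 2 * R)).trans h0)
        (hNf.trans (zpow_le_zpow_right₀ hT.le (by omega : (-2 * R : ℤ) ≤ 2 * R - 2 * k)))
      exact ⟨t, fun _ => ⟨h1, h2, h3⟩⟩
    · exact ⟨0, fun h => absurd h hk⟩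
  choose t ht using hex
  have hlt : ∀ k l : ℕ, k < l → l ≤ 2 * R → t k < t l := by
    intro k l hkl hl
    by_contra hcon
    push Not at hcon
    have h1 := (ht k (by omega)).2.2 (t l) ⟨(ht l hl).1.1, hcon⟩
    rw [(ht l hl).2.1] at h1
    have h2 : T ^ (2 * R - 2 * l : ℤ) < T ^ (2 * R - 2 * k : ℤ) :=
      zpow_lt_zpow_right₀ hT (by omega)
    linarith
  let kap : ℕ → ℕ := fun i => min ⌊t i⌋₊ (N - 1)
  have hkapN : ∀ i, kap i < N := fun i => by
    have : kap i ≤ N - 1 := min_le_right _ _
    omega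
  have hkapI : ∀ i ≤ 2 * R, t i ∈ Icc (kap i : ℝ) (kap i + 1) := by
    intro i hi
    have h1 := (ht i hi).1
    have h2 := Nat.floor_le h1.1
    have h3 := Nat.lt_floor_add_one (t i)
    by_cases hc : ⌊t i⌋₊ ≤ N - 1
    · have : kap i = ⌊t i⌋₊ := min_eq_left hc
      rw [this]
      exact ⟨h2, h3.le⟩
    · have hk : kap i = N - 1 := min_eq_right (by omega)
      have h4 : (N : ℝ) ≤ ⌊t i⌋₊ := by exact_mod_cast (by omega : N ≤ ⌊t i⌋₊)
      have h5 : ((kap i : ℕ) : ℝ) + 1 = N := by
        rw [hk]
        have : N - 1 + 1 = N := by omega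
        exact_mod_cast this
      constructor
      · linarith
      · rw [h5]; exact h1.2
  have hkapm : ∀ k l : ℕ, k ≤ l → l ≤ 2 * R → kap k ≤ kap l := by
    intro k l hkl hl
    rcases hkl.eq_or_lt with h | h
    · rw [h]
    · exact min_le_min_right _ (Nat.floor_mono (hlt k l h hl).le)
  -- the bound for a fibre
  have hfib : ∀ k ∈ range N, ((range (2 * R + 1)).filter (fun i => kap i = k)).card ≤
      2 * d k + 1 := by
    intro k hk
    rw [Finset.mem_range] at hk
    set I := (range (2 * R + 1)).filter (fun i => kap i = k) with hI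
    rcases I.eq_empty_or_nonempty with hem | hnem
    · rw [hem]; simp
    obtain ⟨p, q, w, hp, hq, hw, hpq⟩ := hpc k hk
    set P : Polynomial ℝ := q ^ 2 - Polynomial.C C * p * w with hP
    have hmem : ∀ i ∈ I, i ≤ 2 * R ∧ kap i = k := by
      intro i hi
      rw [hI, Finset.mem_filter, Finset.mem_range] at hi
      exact ⟨by omega, hi.2⟩
    have hdeg : P.natDegree ≤ 2 * d k := by
      refine (Polynomial.natDegree_sub_le _ _).trans (max_le ?_ ?_)
      · exact (Polynomial.natDegree_pow_le).trans (Nat.mul_le_mul_left 2 hq)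
      · have h1 : (Polynomial.C C * p).natDegree ≤ d k :=
          (Polynomial.natDegree_C_mul_le _ _).trans hp
        have h2 := Polynomial.natDegree_mul_le_of_le h1 hw
        omega
    have hsign : ∀ i ∈ I, 0 < (-1) ^ (i + 1) * P.eval (t i) := by
      intro i hi
      obtain ⟨hi1, hi2⟩ := hmem i hi
      have hs := hkapI i hi1
      rw [hi2] at hs
      obtain ⟨hw0, hfs, hgs⟩ := hpq (t i) hs
      have h1 := hsg i hi1 (t i) (ht i hi1).1 (ht i hi1).2.1
      have h2 : P.eval (t i) = (g (t i) ^ 2 - C * f (t i)) * (w.eval (t i)) ^ 2 := by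
        rw [hP, hfs, hgs]
        simp only [Polynomial.eval_sub, Polynomial.eval_pow, Polynomial.eval_mul,
          Polynomial.eval_C]
        field_simp
      rw [h2, ← mul_assoc]
      exact mul_pos h1 (by positivity)
    have hP0 : P ≠ 0 := by
      intro h
      obtain ⟨i, hi⟩ := hnem
      have := hsign i hi
      rw [h] at this
      simp at this
    set m := I.max' hnem with hm
    have hmI : m ∈ I := I.max'_mem hnem
    have hroot : ∀ i : ℕ, ∃ ρ : ℝ, i ∈ I.erase m → t i < ρ ∧ ρ < t (i + 1) ∧ i + 1 ≤ 2 * R ∧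
        P.eval ρ = 0 := by
      intro i
      by_cases hi : i ∈ I.erase m
      · rw [Finset.mem_erase] at hi
        have him : i < m := lt_of_le_of_ne (I.le_max' i hi.2) hi.1
        have hmm := hmem m hmI
        have hii := hmem i hi.2
        have hi1 : i + 1 ∈ I := by
          rw [hI, Finset.mem_filter, Finset.mem_range]
          refine ⟨by omega, ?_⟩
          have h1 := hkapm i (i + 1) (by omega) (by omega)
          have h2 := hkapm (i + 1) m (by omega) hmm.1
          rw [hmm.2] at h2
          rw [hii.2] at h1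
          omega
        have h1 := hsign i hi.2
        have h2 := hsign (i + 1) hi1
        have h3 := hlt i (i + 1) (by omega) (by omega)
        have hcont : ContinuousOn (fun s => (-1) ^ (i + 1) * P.eval s) (Icc (t i) (t (i + 1))) :=
          (continuous_const.mul P.continuous).continuousOn
        have h4 : (-1 : ℝ) ^ (i + 1) * P.eval (t (i + 1)) < 0 := by
          have : (-1 : ℝ) ^ (i + 1 + 1) * P.eval (t (i + 1)) =
              - ((-1 : ℝ) ^ (i + 1) * P.eval (t (i + 1))) := by
            rw [pow_succ (-1 : ℝ) (i + 1)]; ring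
          rw [this] at h2
          linarith
        obtain ⟨ρ, hρ, hρ0⟩ := intermediate_value_Icc' h3.le hcont
          (show (0 : ℝ) ∈ Set.Icc _ _ from ⟨h4.le, h1.le⟩)
        simp only at hρ0
        have hρ1 : P.eval ρ = 0 := by
          rcases mul_eq_zero.1 hρ0 with h | h
          · exact absurd h (pow_ne_zero _ (by norm_num))
          · exact h
        have hne1 : ρ ≠ t i := by
          rintro rfl
          rw [hρ1] at h1
          simp at h1
        have hne2 : ρ ≠ t (i + 1) := by
          rintro rfl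
          rw [hρ1] at h4
          simp at h4
        exact ⟨ρ, fun _ => ⟨lt_of_le_of_ne hρ.1 hne1.symm, lt_of_le_of_ne hρ.2 hne2,
          by omega, hρ1⟩⟩
      · exact ⟨0, fun h => absurd h hi⟩
    choose ρ hρ using hroot
    have hcard : (I.erase m).card ≤ P.roots.toFinset.card := by
      refine Finset.card_le_card_of_injOn ρ ?_ ?_
      · intro i hi
        rw [Finset.mem_coe, Multiset.mem_toFinset, Polynomial.mem_roots hP0]
        exact (hρ i hi).2.2.2
      · have hmono : ∀ i ∈ I.erase m, ∀ j ∈ I.erase m, i < j → ρ i < ρ j := by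
          intro i hi j hj hij
          have h1 := hρ i hi
          have h2 := hρ j hj
          have h3 : t (i + 1) ≤ t j := by
            rcases (show i + 1 ≤ j from hij).eq_or_lt with h | h
            · rw [h]
            · exact (hlt (i + 1) j h (by omega)).le
          linarith [h1.2.1, h2.1]
        intro i hi j hj hij
        rcases lt_trichotomy i j with h | h | h
        · exact absurd hij (hmono i hi j hj h).ne
        · exact h
        · exact absurd hij (hmono j hj i hi h).ne'
    have h5 : P.roots.toFinset.card ≤ P.natDegree :=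
      (Multiset.toFinset_card_le _).trans (Polynomial.card_roots' P)
    rw [Finset.card_erase_of_mem hmI] at hcard
    omega
  have hmaps : ∀ i ∈ range (2 * R + 1), kap i ∈ range N := fun i _ =>
    Finset.mem_range.2 (hkapN i)
  have htot := Finset.card_eq_sum_card_fiberwise (s := range (2 * R + 1)) (t := range N)
    (f := kap) (fun i hi => hmaps i hi)
  rw [Finset.card_range] at htot
  rw [htot]
  exact Finset.sum_le_sum hfib

end Pool.Agent.W805.IP
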